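import Mathlib
import Pool.Agent.T6.H25.PCEmb
import Pool.Agent.T6.H25.PCFwd

/-!
# The profinite groups that occur (MP_ccbc6b_al, Q1)

A profinite group `H` is topologically isomorphic to a closed subgroup `D` with trivial rational
core of the profinite completion of a finitely generated, torsion-free amenable group if and only if
`H` is second countable (equivalently, metrizable, or countably based).

The definitions (profinite completion `CT`, its topology, the canonical map `cn`, `TrivialCore`,
`TF`, `Occurs`) are in `Pool.Agent.T6.H25.PCDef`, amenability (`Amenable`) is in
`Pool.Agent.Helper240.Amen.HB`.

Proof of the if part. 1. `H` embeds in `∏ F n` with `F n` finite perfect groups (alternating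
groups). 2. `Γ` is the subgroup of `(∏ F n^{(ℤ/ℓ n)^3}) ⋊ ℤ^3`, `ℓ n` distinct primes, generated by
`ℤ^3` and two elements whose coordinates list the elements of `F n` on two axes with gaps at least
`n + 1`. It contains all the factors `F n`, its finite quotients kill almost all the `F n` (these
commute with a translate and are perfect), and it is an extension of a locally finite group by a
metabelian one. 3. `E = F₅ / [R, R]` with `F₅ / R = Γ` is torsion-free, `M = R / [R, R]` is abelian.
4. The group `X × Hom(X, M) × E`, `X = M^ℤ`, twisted by the evaluation `Hom(X, M) × X → M`, contains
a finitely generated group `G ⊇ E`, torsion-free and amenable, each finite quotient of which kills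
`M`, as each element of `M` is a commutator of an element with a translate of another one that
becomes trivial for other translates. Thus the completion of `Γ` maps to that of `G`, and
`∏ F n` embeds in the latter, with trivial rational core since `ℤ^3` moves the places.
-/

set_option autoImplicit false

namespace Pool.Agent.Results.MP_ccbc6b_al.Characterization

open Pool.Agent.T6.H25.PC

universe u

/-- A profinite group `H` satisfies the condition of Q1 if and only if it is second countable. -/
theorem result (H : Type u) [Group H] [TopologicalSpace H] [IsTopologicalGroup H] [CompactSpace H]
    [T2Space H] [TotallyDisconnectedSpace H] : Occurs H ↔ SecondCountableTopology H :=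
  ⟨fun h => secondCountable_of_occurs H h, fun _ => occurs_of_secondCountable H⟩

end Pool.Agent.Results.MP_ccbc6b_al.Characterization
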